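import Pool.Agent.Helper81.XP.StA

/-!
MP_f90738_co (project XP): module BSG, Balog-Szemeredi-Gowers in a non-commutative group.
-/

set_option autoImplicit false

open Finset
open scoped Pointwise

namespace Pool.Agent.Helper80.XP

open Pool.Agent.Helper81.XP

open Classical in
/-- fibre of the product map on `A × A` -/
private noncomputable def fb {G : Type} [Group G] (A : Finset G) (x : G) : Finset (G × G) :=
  (A ×ˢ A).filter (fun q => q.1 * q.2 = x)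

private theorem mem_fb {G : Type} [Group G] {A : Finset G} {x : G} {q : G × G} :
    q ∈ fb A x ↔ (q.1 ∈ A ∧ q.2 ∈ A) ∧ q.1 * q.2 = x := by
  simp [fb]

private theorem fb_le {G : Type} [Group G] (A : Finset G) (x : G) : (fb A x).card ≤ A.card := by
  classical
  apply Finset.card_le_card_of_injOn (fun q => q.1)
  · intro q hq
    exact (mem_fb.1 hq).1.1
  · intro q hq q' hq' h
    have h1 := (mem_fb.1 hq).2
    have h2 := (mem_fb.1 hq').2
    have h' : q.1 = q'.1 := h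
    apply Prod.ext h'
    have h3 : q.1 * q.2 = q.1 * q'.2 := by rw [h1, h', h2]
    exact mul_left_cancel h3

private theorem en_eq {G : Type} [Group G] (A : Finset G) :
    En A = ∑ q ∈ A ×ˢ A, (fb A (q.1 * q.2)).card := by
  classical
  have h := Finset.card_sigma (A ×ˢ A) (fun q => fb A (q.1 * q.2))
  rw [← h]
  unfold En
  apply Finset.card_nbij' (fun q => (⟨(q.1, q.2.1), (q.2.2.1, q.2.2.2)⟩ : (_ : G × G) × (G × G)))
    (fun q => (q.1.1, q.1.2, q.2.1, q.2.2))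
  · intro q hq
    simp only [coe_filter, mem_product, Set.mem_setOf_eq] at hq
    simp only [coe_sigma, Set.mem_sigma_iff, mem_coe, mem_product, mem_fb]
    exact ⟨⟨hq.1.1, hq.1.2.1⟩, ⟨hq.1.2.2.1, hq.1.2.2.2⟩, hq.2.symm⟩
  · intro q hq
    simp only [coe_sigma, Set.mem_sigma_iff, mem_coe, mem_product, mem_fb] at hq
    simp only [coe_filter, mem_product, Set.mem_setOf_eq]
    exact ⟨⟨hq.1.1, hq.1.2, hq.2.1.1, hq.2.1.2⟩, hq.2.2.symm⟩
  · intro q _
    rfl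
  · intro q _
    rfl

/-- the popular pairs -/
private theorem pop {G : Type} [Group G] (A : Finset G) (K : ℝ) (hK : 1 ≤ K) (hA : A.Nonempty)
    (h : (A.card : ℝ) ^ 3 ≤ K * (En A : ℝ)) (R : G → G → Prop) [DecidableRel R]
    (hR : ∀ a b, R a b ↔ (A.card : ℝ) / (2 * K) ≤ ((fb A (a * b)).card : ℝ)) :
    (A.card : ℝ) ^ 2 ≤ 2 * K * (((A ×ˢ A).filter (fun q => R q.1 q.2)).card : ℝ) := by
  classical
  have hK0 : 0 < K := by linarith
  have hc : (0 : ℝ) < A.card := by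
    exact_mod_cast hA.card_pos
  have h1 : (En A : ℝ) = ∑ q ∈ A ×ˢ A, ((fb A (q.1 * q.2)).card : ℝ) := by
    rw [en_eq]; push_cast; rfl
  have h2 : (∑ q ∈ A ×ˢ A, ((fb A (q.1 * q.2)).card : ℝ)) ≤
      ∑ q ∈ A ×ˢ A, ((A.card : ℝ) * (if R q.1 q.2 then 1 else 0) + (A.card : ℝ) / (2 * K)) := by
    apply Finset.sum_le_sum
    intro q _
    by_cases hq : R q.1 q.2
    · rw [if_pos hq]
      have := fb_le A (q.1 * q.2)
      have h3 : ((fb A (q.1 * q.2)).card : ℝ) ≤ (A.card : ℝ) := by exact_mod_cast this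
      have h4 : 0 ≤ (A.card : ℝ) / (2 * K) := by positivity
      linarith
    · rw [if_neg hq]
      rw [hR] at hq
      push Not at hq
      linarith
  have h3 : (∑ q ∈ A ×ˢ A, ((A.card : ℝ) * (if R q.1 q.2 then 1 else 0) +
      (A.card : ℝ) / (2 * K))) = (A.card : ℝ) *
      (((A ×ˢ A).filter (fun q => R q.1 q.2)).card : ℝ) +
      (A.card : ℝ) ^ 2 * ((A.card : ℝ) / (2 * K)) := by
    rw [Finset.sum_add_distrib, ← Finset.mul_sum, Finset.sum_const, Finset.card_product,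
      Finset.card_filter]
    push_cast
    rw [nsmul_eq_mul]
    push_cast
    ring
  have h4 : (A.card : ℝ) ^ 3 ≤ K * ((A.card : ℝ) *
      (((A ×ˢ A).filter (fun q => R q.1 q.2)).card : ℝ) +
      (A.card : ℝ) ^ 2 * ((A.card : ℝ) / (2 * K))) := by
    refine h.trans ?_
    apply mul_le_mul_of_nonneg_left _ hK0.le
    rw [h1, ← h3]
    exact h2
  have h5 : K * ((A.card : ℝ) ^ 2 * ((A.card : ℝ) / (2 * K))) = (A.card : ℝ) ^ 3 / 2 := by
    field_simp
  have h6 : (A.card : ℝ) * (A.card : ℝ) ^ 2 ≤ (A.card : ℝ) *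
      (2 * K * (((A ×ˢ A).filter (fun q => R q.1 q.2)).card : ℝ)) := by
    nlinarith [h4, h5]
  exact le_of_mul_le_mul_left h6 hc

/-- the number of representations -/
private theorem reps {G : Type} [Group G] [DecidableEq G] (A A' B' : Finset G) (hA' : A' ⊆ A)
    (hB' : B' ⊆ A)
    (R : G → G → Prop) [DecidableRel R] (t m : ℝ) (ht : 0 ≤ t)
    (hR : ∀ a b, R a b → t ≤ ((fb A (a * b)).card : ℝ))
    (hm : ∀ a ∈ A', ∀ b ∈ B', m ≤
      (((A ×ˢ A).filter (fun q => R a q.1 ∧ R q.2 q.1 ∧ R q.2 b)).card : ℝ)) :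
    ((A' * B').card : ℝ) * (m * t ^ 3) ≤ (A.card : ℝ) ^ 6 := by
  classical
  -- representations of each product
  have hz : ∀ z : G, ∃ p : G × G, z ∈ A' * B' → p.1 ∈ A' ∧ p.2 ∈ B' ∧ p.1 * p.2 = z := by
    intro z
    by_cases h : z ∈ A' * B'
    · obtain ⟨a, ha, b, hb, hab⟩ := Finset.mem_mul.1 h
      exact ⟨(a, b), fun _ => ⟨ha, hb, hab⟩⟩
    · exact ⟨(1, 1), fun h' => absurd h' h⟩
  choose p hp using hz
  set Q : G → Finset (G × G) := fun z =>
    (A ×ˢ A).filter (fun q => R (p z).1 q.1 ∧ R q.2 q.1 ∧ R q.2 (p z).2) with hQ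
  set F : (_ : G) × (G × G) → Finset ((G × G) × (G × G) × (G × G)) := fun s =>
    fb A ((p s.1).1 * s.2.1) ×ˢ fb A (s.2.2 * s.2.1) ×ˢ fb A (s.2.2 * (p s.1).2) with hF
  have hlow : ∀ s ∈ (A' * B').sigma Q, t ^ 3 ≤ ((F s).card : ℝ) := by
    intro s hs
    rw [Finset.mem_sigma] at hs
    obtain ⟨hs1, hs2⟩ := hs
    rw [hQ] at hs2
    simp only [mem_filter, mem_product] at hs2
    obtain ⟨_, r1, r2, r3⟩ := hs2
    have e1 := hR _ _ r1
    have e2 := hR _ _ r2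
    have e3 := hR _ _ r3
    rw [hF]
    simp only [Finset.card_product]
    push_cast
    have e4 : t ^ 3 = t * (t * t) := by ring
    rw [e4]
    apply mul_le_mul e1 _ (by positivity) (by positivity)
    exact mul_le_mul e2 e3 ht (by positivity)
  have hmaps : ∀ s ∈ (A' * B').sigma Q, F s ⊆ (A ×ˢ A) ×ˢ (A ×ˢ A) ×ˢ (A ×ˢ A) := by
    intro s _ x hx
    rw [hF] at hx
    simp only [mem_product, mem_fb] at hx
    simp only [mem_product]
    exact ⟨hx.1.1, hx.2.1.1, hx.2.2.1⟩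
  have hdisj : (((A' * B').sigma Q : Finset ((_ : G) × (G × G))) :
      Set ((_ : G) × (G × G))).PairwiseDisjoint F := by
    intro s hs s' hs' hne
    rw [Function.onFun, Finset.disjoint_left]
    intro x hx hx'
    apply hne
    rw [Finset.mem_coe, Finset.mem_sigma] at hs hs'
    rw [hF] at hx hx'
    simp only [mem_product, mem_fb] at hx hx'
    obtain ⟨⟨_, x1⟩, ⟨_, x2⟩, ⟨_, x3⟩⟩ := hx
    obtain ⟨⟨_, y1⟩, ⟨_, y2⟩, ⟨_, y3⟩⟩ := hx'
    have z1 := (hp s.1 hs.1).2.2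
    have z2 := (hp s'.1 hs'.1).2.2
    have e0 : s.1 = s'.1 := by
      rw [← z1, ← z2]
      have k1 : (p s.1).1 * (p s.1).2 = (x.1.1 * x.1.2) * (x.2.1.1 * x.2.1.2)⁻¹ *
          (x.2.2.1 * x.2.2.2) := by
        rw [x1, x2, x3]; group
      have k2 : (p s'.1).1 * (p s'.1).2 = (x.1.1 * x.1.2) * (x.2.1.1 * x.2.1.2)⁻¹ *
          (x.2.2.1 * x.2.2.2) := by
        rw [y1, y2, y3]; group
      rw [k1, k2]
    obtain ⟨z, q⟩ := s
    obtain ⟨z', q'⟩ := s'
    simp only at e0 x1 x2 x3 y1 y2 y3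
    subst e0
    have e1 : q.1 = q'.1 := mul_left_cancel (x1.symm.trans y1)
    have e2 : q.2 = q'.2 := mul_right_cancel (x3.symm.trans y3)
    rw [Prod.ext e1 e2]
  have hcard : (((A' * B').sigma Q).biUnion F).card ≤ A.card ^ 6 := by
    have h1 : ((A' * B').sigma Q).biUnion F ⊆ (A ×ˢ A) ×ˢ (A ×ˢ A) ×ˢ (A ×ˢ A) :=
      Finset.biUnion_subset.2 hmaps
    refine (Finset.card_le_card h1).trans (le_of_eq ?_)
    simp only [Finset.card_product]
    ring
  rw [Finset.card_biUnion hdisj] at hcard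
  have hcard' : (∑ s ∈ (A' * B').sigma Q, ((F s).card : ℝ)) ≤ (A.card : ℝ) ^ 6 := by
    exact_mod_cast hcard
  have h2 : (∑ s ∈ (A' * B').sigma Q, t ^ 3) ≤ (A.card : ℝ) ^ 6 :=
    (Finset.sum_le_sum hlow).trans hcard'
  rw [Finset.sum_const, Finset.card_sigma, nsmul_eq_mul] at h2
  push_cast at h2
  have h3 : ((A' * B').card : ℝ) * m ≤ ∑ z ∈ A' * B', ((Q z).card : ℝ) := by
    rw [← nsmul_eq_mul, ← Finset.sum_const]
    apply Finset.sum_le_sum
    intro z hz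
    exact hm _ (hp z hz).1 _ (hp z hz).2.1
  calc ((A' * B').card : ℝ) * (m * t ^ 3) = ((A' * B').card : ℝ) * m * t ^ 3 := by ring
    _ ≤ (∑ z ∈ A' * B', ((Q z).card : ℝ)) * t ^ 3 :=
        mul_le_mul_of_nonneg_right h3 (by positivity)
    _ ≤ _ := h2

/-- BSG -/
theorem st_BSG (hP : ST_PTH) : ST_BSG := by
  classical
  obtain ⟨C, hC, hP⟩ := hP
  refine ⟨C ^ 4 * 2 ^ (4 * C + 6), ?_, ?_⟩
  · exact Nat.one_le_iff_ne_zero.2 (by positivity)
  intro G _ A K hK hA hsym hen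
  have hK0 : 0 < K := by linarith
  have hC0 : (1 : ℝ) ≤ C := by exact_mod_cast hC
  have hc : (0 : ℝ) < A.card := by exact_mod_cast hA.card_pos
  set R : G → G → Prop := fun a b => (A.card : ℝ) / (2 * K) ≤ ((fb A (a * b)).card : ℝ) with hR
  set δ : ℝ := 1 / (2 * K) with hδ
  have hδ0 : 0 < δ := by positivity
  have hδ1 : δ ≤ 1 := by
    rw [hδ, div_le_one (by positivity)]; linarith
  have hpop := pop A K hK hA hen R (fun a b => Iff.rfl)
  obtain ⟨A', hA', B', hB', c1, c2, c3⟩ := hP G A A R δ hδ0 hδ1 hA hA (by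
    have e1 : δ * (A.card : ℝ) * (A.card : ℝ) = (A.card : ℝ) ^ 2 / (2 * K) := by
      rw [hδ]; field_simp
    rw [e1, div_le_iff₀ (by positivity)]
    refine hpop.trans (le_of_eq ?_)
    rw [mul_comm])
  have hδC : 0 < δ ^ C := by positivity
  -- representations
  have hrep := reps A A' B' hA' hB' R (δ * A.card) (δ ^ C * (A.card : ℝ) * (A.card : ℝ) / C)
    (by positivity) (by
      intro a b hab
      refine le_trans (le_of_eq ?_) hab
      rw [hδ]; field_simp) (by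
      intro a ha b hb
      rw [div_le_iff₀ (by linarith)]
      refine (c3 a ha b hb).trans (le_of_eq ?_)
      rw [mul_comm])
  have hAB : ((A' * B').card : ℝ) * δ ^ (C + 3) ≤ C * (A.card : ℝ) := by
    have e1 : ((A' * B').card : ℝ) * (δ ^ C * (A.card : ℝ) * (A.card : ℝ) / C *
        (δ * A.card) ^ 3) = (A.card : ℝ) ^ 5 * (((A' * B').card : ℝ) * δ ^ (C + 3) / C) := by
      ring
    have e2 : (A.card : ℝ) ^ 6 = (A.card : ℝ) ^ 5 * (A.card : ℝ) := by ring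
    rw [e1, e2] at hrep
    have e3 := le_of_mul_le_mul_left hrep (by positivity)
    rw [div_le_iff₀ (by linarith)] at e3
    linarith
  have hrz : ((A' * A'⁻¹).card : ℝ) * (B'.card : ℝ) ≤ ((A' * B').card : ℝ) ^ 2 := by
    have h1 := Finset.ruzsa_triangle_inequality_mulInv_mulInv_mulInv A' B'⁻¹ A'
    rw [inv_inv, Finset.card_inv] at h1
    have h2 : ((A' * A'⁻¹).card : ℝ) * (B'.card : ℝ) ≤
        ((A' * B').card : ℝ) * ((A' * B').card : ℝ) := by exact_mod_cast h1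
    rw [sq]; exact h2
  -- conclusion
  have hA'0 : (0 : ℝ) < A'.card := by
    have h1 : 0 < δ ^ C * (A.card : ℝ) := by positivity
    have h2 : 0 < (C : ℝ) * (A'.card : ℝ) := lt_of_lt_of_le h1 c1
    by_contra h3
    have h4 : (A'.card : ℝ) = 0 := le_antisymm (not_lt.1 h3) (by positivity)
    rw [h4, mul_zero] at h2
    exact lt_irrefl _ h2
  have hkey : ((A' * A'⁻¹).card : ℝ) * δ ^ (4 * C + 6) ≤ (C : ℝ) ^ 4 * (A'.card : ℝ) := by
    have s1 : δ ^ C * (A.card : ℝ) * ((A' * A'⁻¹).card : ℝ) ≤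
        C * ((A' * B').card : ℝ) ^ 2 := by
      calc δ ^ C * (A.card : ℝ) * ((A' * A'⁻¹).card : ℝ)
          ≤ C * (B'.card : ℝ) * ((A' * A'⁻¹).card : ℝ) :=
            mul_le_mul_of_nonneg_right c2 (by positivity)
        _ = C * (((A' * A'⁻¹).card : ℝ) * (B'.card : ℝ)) := by ring
        _ ≤ C * ((A' * B').card : ℝ) ^ 2 := mul_le_mul_of_nonneg_left hrz (by linarith)
    have s2 : (((A' * B').card : ℝ) * δ ^ (C + 3)) ^ 2 ≤ (C * (A.card : ℝ)) ^ 2 :=
      pow_le_pow_left₀ (by positivity) hAB 2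
    have s3 : δ ^ C * (A.card : ℝ) * ((A' * A'⁻¹).card : ℝ) * (δ ^ (C + 3)) ^ 2 ≤
        C * (C * (A.card : ℝ)) ^ 2 := by
      calc δ ^ C * (A.card : ℝ) * ((A' * A'⁻¹).card : ℝ) * (δ ^ (C + 3)) ^ 2
          ≤ C * ((A' * B').card : ℝ) ^ 2 * (δ ^ (C + 3)) ^ 2 :=
            mul_le_mul_of_nonneg_right s1 (by positivity)
        _ = C * (((A' * B').card : ℝ) * δ ^ (C + 3)) ^ 2 := by ring
        _ ≤ C * (C * (A.card : ℝ)) ^ 2 := mul_le_mul_of_nonneg_left s2 (by linarith)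
    have s4 : (A.card : ℝ) * (((A' * A'⁻¹).card : ℝ) * δ ^ (3 * C + 6)) ≤
        (A.card : ℝ) * ((C : ℝ) ^ 3 * (A.card : ℝ)) := by
      calc (A.card : ℝ) * (((A' * A'⁻¹).card : ℝ) * δ ^ (3 * C + 6))
          = δ ^ C * (A.card : ℝ) * ((A' * A'⁻¹).card : ℝ) * (δ ^ (C + 3)) ^ 2 := by ring
        _ ≤ C * (C * (A.card : ℝ)) ^ 2 := s3
        _ = _ := by ring
    have s5 := le_of_mul_le_mul_left s4 hc
    calc ((A' * A'⁻¹).card : ℝ) * δ ^ (4 * C + 6)
        = ((A' * A'⁻¹).card : ℝ) * δ ^ (3 * C + 6) * δ ^ C := by ring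
      _ ≤ (C : ℝ) ^ 3 * (A.card : ℝ) * δ ^ C := mul_le_mul_of_nonneg_right s5 hδC.le
      _ = (C : ℝ) ^ 3 * (δ ^ C * (A.card : ℝ)) := by ring
      _ ≤ (C : ℝ) ^ 3 * (C * (A'.card : ℝ)) := mul_le_mul_of_nonneg_left c1 (by positivity)
      _ = _ := by ring
  have hδp : ∀ j : ℕ, δ ^ j * ((2 : ℝ) ^ j * K ^ j) = 1 := by
    intro j
    rw [← mul_pow, ← mul_pow, hδ]
    have : 1 / (2 * K) * (2 * K) = 1 := by field_simp
    rw [this, one_pow]
  have hN : 4 * C + 6 ≤ C ^ 4 * 2 ^ (4 * C + 6) := by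
    have h1 : 4 * C + 6 ≤ 2 ^ (4 * C + 6) := Nat.lt_two_pow_self.le
    have h2 : 1 ≤ C ^ 4 := Nat.one_le_pow _ _ hC
    calc 4 * C + 6 ≤ 2 ^ (4 * C + 6) := h1
      _ = 1 * 2 ^ (4 * C + 6) := by rw [one_mul]
      _ ≤ _ := Nat.mul_le_mul_right _ h2
  refine ⟨A', hA', ?_, ?_, ?_⟩
  · rw [← Finset.card_pos]; exact_mod_cast hA'0
  · have h1 : (A.card : ℝ) ≤ C * (2 ^ C * K ^ C) * (A'.card : ℝ) := by
      calc (A.card : ℝ) = δ ^ C * (2 ^ C * K ^ C) * (A.card : ℝ) := by rw [hδp, one_mul]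
        _ = (2 ^ C * K ^ C) * (δ ^ C * (A.card : ℝ)) := by ring
        _ ≤ (2 ^ C * K ^ C) * (C * (A'.card : ℝ)) :=
            mul_le_mul_of_nonneg_left c1 (by positivity)
        _ = _ := by ring
    refine h1.trans (mul_le_mul_of_nonneg_right ?_ hA'0.le)
    push_cast
    have h2 : K ^ C ≤ K ^ (C ^ 4 * 2 ^ (4 * C + 6)) := pow_le_pow_right₀ hK (by omega)
    have h3 : (C : ℝ) * 2 ^ C ≤ (C : ℝ) ^ 4 * 2 ^ (4 * C + 6) := by
      apply mul_le_mul _ _ (by positivity) (by positivity)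
      · calc (C : ℝ) = (C : ℝ) ^ 1 := by rw [pow_one]
          _ ≤ (C : ℝ) ^ 4 := pow_le_pow_right₀ hC0 (by norm_num)
      · exact pow_le_pow_right₀ (by norm_num) (by omega)
    calc (C : ℝ) * (2 ^ C * K ^ C) = (C : ℝ) * 2 ^ C * K ^ C := by ring
      _ ≤ _ := mul_le_mul h3 h2 (by positivity) (by positivity)
  · have h1 : ((A' * A'⁻¹).card : ℝ) ≤
        (C : ℝ) ^ 4 * (A'.card : ℝ) * (2 ^ (4 * C + 6) * K ^ (4 * C + 6)) := by
      calc ((A' * A'⁻¹).card : ℝ)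
          = ((A' * A'⁻¹).card : ℝ) * (δ ^ (4 * C + 6) * (2 ^ (4 * C + 6) * K ^ (4 * C + 6))) := by
            rw [hδp, mul_one]
        _ = ((A' * A'⁻¹).card : ℝ) * δ ^ (4 * C + 6) * (2 ^ (4 * C + 6) * K ^ (4 * C + 6)) := by
            ring
        _ ≤ _ := mul_le_mul_of_nonneg_right hkey (by positivity)
    refine h1.trans ?_
    push_cast
    have h2 : K ^ (4 * C + 6) ≤ K ^ (C ^ 4 * 2 ^ (4 * C + 6)) := pow_le_pow_right₀ hK hN
    calc (C : ℝ) ^ 4 * (A'.card : ℝ) * (2 ^ (4 * C + 6) * K ^ (4 * C + 6))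
        = (C : ℝ) ^ 4 * 2 ^ (4 * C + 6) * K ^ (4 * C + 6) * (A'.card : ℝ) := by ring
      _ ≤ _ := by
        apply mul_le_mul_of_nonneg_right _ hA'0.le
        exact mul_le_mul_of_nonneg_left h2 (by positivity)

end Pool.Agent.Helper80.XP
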