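import Pool.Agent.Helper81.XP.StB

/-!
MP_f90738_co (project XP): module CNB, every point of the curve is a specialisation of a generic
point.
-/

set_option autoImplicit false

open Finset

namespace Pool.Agent.Helper80.XP

open Pool.Agent.Helper81.XP

section cl

variable {k K : Type} [Field k] [Field K] [Algebra k K] (O : ValuationSubring K)

private def Cl (u : K) (r : k) : Prop := O.valuation (u - algebraMap k K r) < 1

variable {O}

private theorem cl_c (r : k) : Cl O (algebraMap k K r) r := by
  unfold Cl
  rw [sub_self, map_zero]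
  exact zero_lt_one

private theorem cl_add {u u' : K} {r r' : k} (h : Cl O u r) (h' : Cl O u' r') :
    Cl O (u + u') (r + r') := by
  unfold Cl at *
  have e : u + u' - algebraMap k K (r + r') = (u - algebraMap k K r) +
      (u' - algebraMap k K r') := by
    rw [map_add]; ring
  rw [e]
  exact lt_of_le_of_lt (O.valuation.map_add _ _) (max_lt h h')

private theorem cl_le (hO : ∀ c : k, algebraMap k K c ∈ O) {u : K} {r : k} (h : Cl O u r) :
    O.valuation u ≤ 1 := by
  unfold Cl at h
  have e : u = (u - algebraMap k K r) + algebraMap k K r := by ring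
  rw [e]
  refine (O.valuation.map_add _ _).trans (max_le h.le ?_)
  exact (O.valuation_le_one_iff _).2 (hO r)

private theorem cl_mul (hO : ∀ c : k, algebraMap k K c ∈ O) {u u' : K} {r r' : k}
    (h : Cl O u r) (h' : Cl O u' r') : Cl O (u * u') (r * r') := by
  have hu := cl_le hO h
  unfold Cl at *
  have e : u * u' - algebraMap k K (r * r') = u * (u' - algebraMap k K r') +
      (u - algebraMap k K r) * algebraMap k K r' := by
    rw [map_mul]; ring
  rw [e]
  have hr : O.valuation (algebraMap k K r') ≤ 1 := (O.valuation_le_one_iff _).2 (hO r')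
  refine lt_of_le_of_lt (O.valuation.map_add _ _) (max_lt ?_ ?_)
  · rw [map_mul]
    exact mul_lt_one_of_nonneg_of_lt_one_right hu zero_le h'
  · rw [map_mul]
    exact mul_lt_one_of_nonneg_of_lt_one_left zero_le h hr

private theorem cl_pow (hO : ∀ c : k, algebraMap k K c ∈ O) {u : K} {r : k}
    (h : Cl O u r) (n : ℕ) : Cl O (u ^ n) (r ^ n) := by
  induction n with
  | zero =>
    rw [pow_zero, pow_zero]
    have := cl_c (O := O) (K := K) (1 : k)
    rwa [map_one] at this
  | succ n ih =>
    rw [pow_succ, pow_succ]
    exact cl_mul hO ih h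

private theorem cl_p1 (hO : ∀ c : k, algebraMap k K c ∈ O) {x : K} {a : k}
    (h : Cl O x a) (q : Polynomial k) :
    Cl O (Polynomial.eval₂RingHom (algebraMap k K) x q)
      (Polynomial.eval₂RingHom (algebraMap k k) a q) := by
  induction q using Polynomial.induction_on' with
  | add p q hp hq =>
    rw [map_add, map_add]
    exact cl_add hp hq
  | monomial n r =>
    simp only [Polynomial.coe_eval₂RingHom, Polynomial.eval₂_monomial]
    exact cl_mul hO (cl_c r) (cl_pow hO h n)

private theorem cl_p2 (hO : ∀ c : k, algebraMap k K c ∈ O) {x y : K} {a b : k}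
    (h : Cl O x a) (h' : Cl O y b) (R : T2 k) :
    Cl O (ev2 x y R) (ev2 a b R) := by
  unfold ev2
  induction R using Polynomial.induction_on' with
  | add p q hp hq =>
    rw [map_add, map_add]
    exact cl_add hp hq
  | monomial n r =>
    rw [Polynomial.coe_eval₂RingHom, Polynomial.coe_eval₂RingHom, Polynomial.eval₂_monomial,
      Polynomial.eval₂_monomial]
    exact cl_mul hO (cl_p1 hO h r) (cl_pow hO h' n)

private theorem vc (hO : ∀ c : k, algebraMap k K c ∈ O) {c : k} (hc : c ≠ 0) :
    O.valuation (algebraMap k K c) = 1 := by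
  apply le_antisymm
  · exact (O.valuation_le_one_iff _).2 (hO c)
  · have h1 : O.valuation (algebraMap k K c⁻¹) ≤ 1 := (O.valuation_le_one_iff _).2 (hO _)
    have h2 : O.valuation (algebraMap k K c) * O.valuation (algebraMap k K c⁻¹) = 1 := by
      rw [← map_mul, ← map_mul, mul_inv_cancel₀ hc, map_one, map_one]
    calc (1 : _) = O.valuation (algebraMap k K c) * O.valuation (algebraMap k K c⁻¹) := h2.symm
      _ ≤ O.valuation (algebraMap k K c) * 1 := mul_le_mul_right h1 _
      _ = _ := mul_one _

end cl

/-- leading coefficient of a mapped polynomial -/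
private theorem lcm {A B : Type} [CommRing A] [CommRing B] (φ : A →+* B) (F : Polynomial A) (N : ℕ)
    (h1 : ∀ i, N < i → F.coeff i = 0) (h2 : φ (F.coeff N) ≠ 0) :
    (F.map φ).leadingCoeff = φ (F.coeff N) := by
  have h3 : (F.map φ).natDegree = N := by
    apply le_antisymm
    · rw [Polynomial.natDegree_le_iff_coeff_eq_zero]
      intro i hi
      rw [Polynomial.coeff_map, h1 i hi, map_zero]
    · apply Polynomial.le_natDegree_of_ne_zero
      rwa [Polynomial.coeff_map]
  rw [Polynomial.leadingCoeff, h3, Polynomial.coeff_map]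

/-- CNB -/
theorem st_CNB (hRTL : ST_RTL) (hRED : ST_RED) (hLIA : ST_LIA) : ST_CNB := by
  classical
  intro k _ M g R d N hM hg hR a b c hab habc O hO
  obtain ⟨hOc, hOt⟩ := hO
  have clt : Cl O (tt k) a := hOt
  -- first root
  obtain ⟨hR1, c1, hc1, hR2⟩ := hR
  set G1 : Polynomial (Om k) :=
    R.map (Polynomial.eval₂RingHom (algebraMap k (Om k)) (tt k)) with hG1
  have ev1 : ∀ s : Om k, G1.eval s = ev2 (tt k) s R := by
    intro s
    rw [hG1, Polynomial.eval_map]
    rfl
  have lead1 : O.valuation G1.leadingCoeff = 1 := by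
    have e0 : Polynomial.eval₂RingHom (algebraMap k (Om k)) (tt k) (R.coeff N) =
        algebraMap k (Om k) c1 := by
      rw [hR2]
      simp
    have e1 : G1.leadingCoeff = algebraMap k (Om k) c1 := by
      rw [hG1, lcm _ R N, e0]
      · intro i hi
        by_contra h
        obtain ⟨j, hj⟩ : ∃ j, (R.coeff i).coeff j ≠ 0 := by
          by_contra h'
          push Not at h'
          exact h (Polynomial.ext (by simpa using h'))
        have := hR1 i j hj
        omega
      · rw [e0]
        exact (map_ne_zero _).2 hc1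
    rw [e1]
    exact vc hOc hc1
  have small1 : O.valuation (G1.eval (algebraMap k (Om k) b)) < 1 := by
    rw [ev1]
    have h := cl_p2 hOc clt (cl_c (O := O) (K := Om k) b) R
    rw [hab] at h
    unfold Cl at h
    rwa [map_zero, sub_zero] at h
  obtain ⟨s, hs, hbs⟩ := hRTL (Om k) O G1 _ lead1 small1
  have cls : Cl O s b := by
    unfold Cl
    rwa [Valuation.map_sub_swap]
  -- second root
  obtain ⟨hg1, c2, hc2, hg2⟩ := hg
  set G2 : Polynomial (Om k) := (phi M g).map (ev2 (tt k) s) with hG2
  have ev2' : ∀ w : Om k, G2.eval w = ev3 (tt k) s w (phi M g) := by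
    intro w
    rw [hG2, Polynomial.eval_map]
    rfl
  have lead2 : O.valuation G2.leadingCoeff = 1 := by
    have e0 : ev2 (tt k) s ((phi M g).coeff d) = algebraMap k (Om k) c2 := by
      rw [hg2]
      unfold ev2
      simp
    have e1 : G2.leadingCoeff = algebraMap k (Om k) c2 := by
      rw [hG2, lcm _ (phi M g) d, e0]
      · intro i hi
        by_contra h
        obtain ⟨j, hj⟩ : ∃ j, ((phi M g).coeff i).coeff j ≠ 0 := by
          by_contra h'
          push Not at h'
          exact h (Polynomial.ext (by simpa using h'))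
        obtain ⟨l, hl⟩ : ∃ l, (((phi M g).coeff i).coeff j).coeff l ≠ 0 := by
          by_contra h'
          push Not at h'
          exact hj (Polynomial.ext (by simpa using h'))
        have := hg1 i j l hl
        omega
      · rw [e0]
        exact (map_ne_zero _).2 hc2
    rw [e1]
    exact vc hOc hc2
  have mvcl : ∀ w : Om k, Cl O w c → ∀ i, O.valuation (mv M (tt k) s w i -
      algebraMap k (Om k) (mv M a b c i)) < 1 := by
    intro w hw i
    have h := cl_add (cl_add (cl_mul hOc (cl_c (O := O) (K := Om k) (M i 0)) clt)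
      (cl_mul hOc (cl_c (O := O) (K := Om k) (M i 1)) cls))
      (cl_mul hOc (cl_c (O := O) (K := Om k) (M i 2)) hw)
    unfold Cl at h
    exact h
  have small2 : O.valuation (G2.eval (algebraMap k (Om k) c)) < 1 := by
    rw [ev2', (hLIA k).1]
    have h := (hRED k (Om k) O (mv M a b c) (mv M (tt k) s (algebraMap k (Om k) c)) hOc
      (mvcl _ (cl_c c))).1 g
    rwa [habc, map_zero, sub_zero] at h
  obtain ⟨w, hw, hcw⟩ := hRTL (Om k) O G2 _ lead2 small2
  have clw : Cl O w c := by
    unfold Cl
    rwa [Valuation.map_sub_swap]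
  refine ⟨mv M (tt k) s w, ⟨s, w, rfl, ?_, ?_⟩, mvcl w clw⟩
  · rw [← ev1]; exact hs
  · rw [← ev2']; exact hw

end Pool.Agent.Helper80.XP
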