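import Pool.Agent.Helper81.XP.StA
import Pool.Agent.Helper81.XP.StB

/-!
MP_f90738_co (project XP): module FIN, the main theorem.
-/

set_option autoImplicit false

open Finset
open scoped Pointwise

namespace Pool.Agent.Helper80.XP

open Pool.Agent.Helper81.XP

private theorem expd_mono {G : Type} [Group G] (a b : G) (c c' : ℝ) (h : c' ≤ c)
    (he : Expd a b c) : Expd a b c' := by
  intro X hX
  refine le_trans (mul_le_mul_of_nonneg_right h (Nat.cast_nonneg _)) ?_
  exact he X hX

/-- FIN -/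
theorem st_FIN (hCTT : ST_CTT) (hMIX : ST_MIX) (hSML : ST_SML) (hCRD : ST_CRD) : ST_FIN := by
  classical
  intro δ hδ
  obtain ⟨T, hT, hC⟩ := hCTT
  obtain ⟨p0, hp0⟩ := hC (δ / 4) (by positivity)
  obtain ⟨c1, hc1, p1, hp1⟩ := hMIX (δ / 4) T (by positivity) hT
  set m : ℕ := max p0 p1 with hm
  have hM : (0 : ℝ) < 1 / ((m : ℝ) ^ 3 + 1) := by positivity
  refine ⟨min c1 (1 / ((m : ℝ) ^ 3 + 1)), lt_min hc1 hM, ?_⟩
  intro p hpf
  by_cases hpm : m ≤ p
  · obtain ⟨j, hj, X, hX, hXX⟩ := hp0 p ((le_max_left _ _).trans hpm)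
    refine ⟨X, ?_, ?_⟩
    · have : 4 * (δ / 4) = δ := by ring
      rwa [this] at hX
    · intro A B hAB hnot
      apply expd_mono A B c1 _ (min_le_left _ _)
      exact hp1 p ((le_max_right _ _).trans hpm) A B j hj hAB (hXX A B hAB hnot)
  · refine ⟨∅, ?_, ?_⟩
    · rw [Finset.card_empty, Nat.cast_zero]
      positivity
    · intro A B hAB _
      have h1 := hSML (SL (ZMod p)) A B hAB
      apply expd_mono A B _ _ ?_ h1
      refine (min_le_right _ _).trans ?_
      have hcard : Nat.card (SL (ZMod p)) ≤ m ^ 3 := by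
        rw [hCRD p hpf.out]
        have h2 : p ^ 3 ≤ m ^ 3 := Nat.pow_le_pow_left (le_of_lt (not_le.1 hpm)) 3
        omega
      have hpos : 0 < Nat.card (SL (ZMod p)) := Nat.card_pos
      apply one_div_le_one_div_of_le
      · exact_mod_cast hpos
      · have h3 : (Nat.card (SL (ZMod p)) : ℝ) ≤ (m : ℝ) ^ 3 := by exact_mod_cast hcard
        linarith

end Pool.Agent.Helper80.XP
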