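import Pool.Agent.Helper81.XP.StA

/-!
MP_f90738_co (project XP): module TOC, torus bound for arbitrary tori.
-/

set_option autoImplicit false

open Finset
open scoped Pointwise LinearAlgebra.Projectivization

namespace Pool.Agent.Helper80.XP

open Pool.Agent.Helper81.XP

private theorem par {K : Type} [Field K] (u w : Fin 2 → K) (hu : u ≠ 0) (hw : w ≠ 0) :
    Projectivization.mk K u hu = Projectivization.mk K w hw ↔ u 0 * w 1 = u 1 * w 0 := by
  rw [Projectivization.mk_eq_mk_iff']
  constructor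
  · rintro ⟨a, rfl⟩
    simp only [Pi.smul_apply, smul_eq_mul]
    ring
  · intro h
    by_cases h0 : w 0 = 0
    · have h1 : w 1 ≠ 0 := by
        intro h1
        apply hw
        funext i
        fin_cases i
        · exact h0
        · exact h1
      refine ⟨u 1 / w 1, ?_⟩
      rw [h0, mul_zero] at h
      have hu0 : u 0 = 0 := (mul_eq_zero.1 h).resolve_right h1
      funext i
      fin_cases i
      · simp [h0, hu0]
      · simp [h1]
    · refine ⟨u 0 / w 0, ?_⟩
      funext i
      fin_cases i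
      · simp [h0]
      · simp only [Pi.smul_apply, smul_eq_mul, Fin.mk_one, Fin.isValue]
        rw [div_mul_eq_mul_div, h, mul_div_assoc, div_self h0, mul_one]

private theorem sm {K : Type} [Field K] (x : SL K) (v : Fin 2 → K) (i : Fin 2) :
    (x • v) i = (x : Matrix (Fin 2) (Fin 2) K) i 0 * v 0 +
      (x : Matrix (Fin 2) (Fin 2) K) i 1 * v 1 := by
  have h : x • v = (x : Matrix (Fin 2) (Fin 2) K).mulVec v := rfl
  rw [h, Matrix.mulVec, dotProduct, Fin.sum_univ_two]

private theorem act {K : Type} [Field K] (x : SL K) (v w : Fin 2 → K) (hv : v ≠ 0) (hw : w ≠ 0) :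
    x • Projectivization.mk K v hv = Projectivization.mk K w hw ↔
      ((x : Matrix (Fin 2) (Fin 2) K) 0 0 * v 0 + (x : Matrix (Fin 2) (Fin 2) K) 0 1 * v 1) * w 1 =
      ((x : Matrix (Fin 2) (Fin 2) K) 1 0 * v 0 + (x : Matrix (Fin 2) (Fin 2) K) 1 1 * v 1) *
        w 0 := by
  rw [Projectivization.smul_mk, par, sm, sm]

/-- TOC -/
theorem st_TOC (hTOR : ST_TOR) : ST_TOC := by
  classical
  intro K _ A ξ ξ' g j h1A hg hne n1 n2 n3 n4
  induction ξ using Projectivization.ind with
  | _ v hv =>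
  induction ξ' using Projectivization.ind with
  | _ w hw =>
  set d : K := v 0 * w 1 - v 1 * w 0 with hd
  have hd0 : d ≠ 0 := by
    intro h
    apply hne
    rw [par]
    exact sub_eq_zero.1 h
  -- the conjugating matrix
  have hdet : Matrix.det !![v 0, w 0 / d; v 1, w 1 / d] = 1 := by
    rw [Matrix.det_fin_two]
    simp only [Matrix.of_apply, Matrix.cons_val', Matrix.cons_val_zero, Matrix.cons_val_one,
      Matrix.cons_val_fin_one]
    rw [← div_self hd0]
    rw [hd]
    ring
  set P : SL K := ⟨!![v 0, w 0 / d; v 1, w 1 / d], hdet⟩ with hP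
  have ent : ∀ x : SL K,
      (((P⁻¹ * x * P : SL K) : Matrix (Fin 2) (Fin 2) K) 0 0 =
        (((x : Matrix (Fin 2) (Fin 2) K) 0 0 * v 0 + (x : Matrix (Fin 2) (Fin 2) K) 0 1 * v 1) *
          w 1 - ((x : Matrix (Fin 2) (Fin 2) K) 1 0 * v 0 +
          (x : Matrix (Fin 2) (Fin 2) K) 1 1 * v 1) * w 0) / d) ∧
      (((P⁻¹ * x * P : SL K) : Matrix (Fin 2) (Fin 2) K) 0 1 =
        (((x : Matrix (Fin 2) (Fin 2) K) 0 0 * w 0 + (x : Matrix (Fin 2) (Fin 2) K) 0 1 * w 1) *
          w 1 - ((x : Matrix (Fin 2) (Fin 2) K) 1 0 * w 0 +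
          (x : Matrix (Fin 2) (Fin 2) K) 1 1 * w 1) * w 0) / d ^ 2) ∧
      (((P⁻¹ * x * P : SL K) : Matrix (Fin 2) (Fin 2) K) 1 0 =
        ((x : Matrix (Fin 2) (Fin 2) K) 1 0 * v 0 + (x : Matrix (Fin 2) (Fin 2) K) 1 1 * v 1) *
          v 0 - ((x : Matrix (Fin 2) (Fin 2) K) 0 0 * v 0 +
          (x : Matrix (Fin 2) (Fin 2) K) 0 1 * v 1) * v 1) ∧
      (((P⁻¹ * x * P : SL K) : Matrix (Fin 2) (Fin 2) K) 1 1 =
        (((x : Matrix (Fin 2) (Fin 2) K) 1 0 * w 0 + (x : Matrix (Fin 2) (Fin 2) K) 1 1 * w 1) *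
          v 0 - ((x : Matrix (Fin 2) (Fin 2) K) 0 0 * w 0 +
          (x : Matrix (Fin 2) (Fin 2) K) 0 1 * w 1) * v 1) / d) := by
    intro x
    have hc : ((P⁻¹ * x * P : SL K) : Matrix (Fin 2) (Fin 2) K) =
        Matrix.adjugate !![v 0, w 0 / d; v 1, w 1 / d] * (x : Matrix (Fin 2) (Fin 2) K) *
          !![v 0, w 0 / d; v 1, w 1 / d] := rfl
    rw [hc, Matrix.adjugate_fin_two]
    simp only [Matrix.mul_apply, Fin.sum_univ_two, Matrix.of_apply,
      Matrix.cons_val', Matrix.cons_val_zero, Matrix.cons_val_one, Matrix.cons_val_fin_one]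
    refine ⟨?_, ?_, ?_, ?_⟩
    · field_simp; ring
    · field_simp; ring
    · ring
    · field_simp; ring
  set F := (A ^ j).filter (fun x => x • Projectivization.mk K v hv = Projectivization.mk K v hv ∧
    x • Projectivization.mk K w hw = Projectivization.mk K w hw) with hF
  set cj : SL K → SL K := fun x => P⁻¹ * x * P with hcj
  have hinj : Function.Injective cj := by
    intro x y hxy
    have h : P⁻¹ * x * P = P⁻¹ * y * P := hxy
    exact mul_left_cancel (mul_right_cancel h)
  have hcard : (F.image cj).card = F.card := Finset.card_image_of_injective _ hinj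
  have hT := hTOR K (F.image cj) (cj g) (by
    intro y hy
    obtain ⟨x, hx, rfl⟩ := Finset.mem_image.1 hy
    rw [hF, Finset.mem_filter, act, act] at hx
    obtain ⟨_, e1, e2⟩ := hx
    obtain ⟨_, k01, k10, _⟩ := ent x
    refine ⟨?_, ?_⟩
    · rw [hcj]
      rw [k01, e2]
      ring
    · rw [hcj]
      rw [k10, ← e1]
      ring) (by
    obtain ⟨k00, k01, k10, k11⟩ := ent g
    have z00 : ((cj g : SL K) : Matrix (Fin 2) (Fin 2) K) 0 0 ≠ 0 := by
      intro h
      apply n2
      rw [act]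
      rw [hcj] at h
      rw [k00, div_eq_zero_iff] at h
      exact sub_eq_zero.1 (h.resolve_right hd0)
    have z01 : ((cj g : SL K) : Matrix (Fin 2) (Fin 2) K) 0 1 ≠ 0 := by
      intro h
      apply n4
      rw [act]
      rw [hcj] at h
      rw [k01, div_eq_zero_iff] at h
      exact sub_eq_zero.1 (h.resolve_right (pow_ne_zero 2 hd0))
    have z10 : ((cj g : SL K) : Matrix (Fin 2) (Fin 2) K) 1 0 ≠ 0 := by
      intro h
      apply n1
      rw [act]
      rw [hcj] at h
      rw [k10] at h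
      exact (sub_eq_zero.1 h).symm
    have z11 : ((cj g : SL K) : Matrix (Fin 2) (Fin 2) K) 1 1 ≠ 0 := by
      intro h
      apply n3
      rw [act]
      rw [hcj] at h
      rw [k11, div_eq_zero_iff] at h
      exact (sub_eq_zero.1 (h.resolve_right hd0)).symm
    intro a b
    fin_cases a <;> fin_cases b
    · exact z00
    · exact z01
    · exact z10
    · exact z11)
  rw [hcard] at hT
  refine hT.trans (Nat.mul_le_mul_left 8 ?_)
  have hsub : F.image cj * {cj g} * F.image cj * {cj g} * F.image cj ⊆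
      (A ^ (3 * j + 16)).image cj := by
    intro y hy
    obtain ⟨y4, hy4, y5, hy5, rfl⟩ := Finset.mem_mul.1 hy
    obtain ⟨y3, hy3, g2, hg2, rfl⟩ := Finset.mem_mul.1 hy4
    obtain ⟨y2, hy2, y1, hy1, rfl⟩ := Finset.mem_mul.1 hy3
    obtain ⟨y0, hy0, g1, hg1, rfl⟩ := Finset.mem_mul.1 hy2
    rw [Finset.mem_singleton] at hg1 hg2
    subst hg1
    subst hg2
    obtain ⟨x0, hx0, rfl⟩ := Finset.mem_image.1 hy0
    obtain ⟨x1, hx1, rfl⟩ := Finset.mem_image.1 hy1
    obtain ⟨x5, hx5, rfl⟩ := Finset.mem_image.1 hy5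
    rw [hF, Finset.mem_filter] at hx0 hx1 hx5
    refine Finset.mem_image.2 ⟨x0 * g * x1 * g * x5, ?_, ?_⟩
    · have e : 3 * j + 16 = j + 8 + j + 8 + j := by ring
      rw [e, pow_add, pow_add, pow_add, pow_add]
      exact Finset.mul_mem_mul (Finset.mul_mem_mul (Finset.mul_mem_mul (Finset.mul_mem_mul
        hx0.1 hg) hx1.1) hg) hx5.1
    · simp only [hcj]
      group
  exact (Finset.card_le_card hsub).trans Finset.card_image_le

end Pool.Agent.Helper80.XP
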