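import Pool.Agent.Helper81.XP.StB

/-!
MP_f90738_co (project XP): module WDL, words.
-/

set_option autoImplicit false

open Finset
open scoped Pointwise

namespace Pool.Agent.Helper80.XP

open Pool.Agent.Helper81.XP

private theorem wdl_mul {Γ : Type} [Group Γ] (a b : Γ) (m n : ℕ) (g h : Γ)
    (hg : IsWd a b m g) (hh : IsWd a b n h) : IsWd a b (m + n) (g * h) := by
  obtain ⟨w, rfl⟩ := hg
  obtain ⟨v, rfl⟩ := hh
  refine ⟨Fin.append w v, ?_⟩
  unfold wd
  rw [← List.prod_append, ← List.ofFn_fin_append]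
  apply congrArg List.prod
  apply congrArg List.ofFn
  funext i
  refine Fin.addCases (fun i => ?_) (fun i => ?_) i
  · rw [Fin.append_left, Fin.append_left]
  · rw [Fin.append_right, Fin.append_right]

private theorem wdl_lt {Γ : Type} [Group Γ] (a b : Γ) (i : Fin 5) : IsWd a b 1 (lt a b i) := by
  refine ⟨fun _ => i, ?_⟩
  simp [wd, List.ofFn_succ]

private theorem wdl_one {Γ : Type} [Group Γ] (a b : Γ) (n : ℕ) : IsWd a b n 1 := by
  induction n with
  | zero => exact ⟨Fin.elim0, by simp [wd]⟩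
  | succ n ih =>
    have h1 : IsWd a b 1 (1 : Γ) := wdl_lt a b 0
    have h := wdl_mul a b n 1 1 1 ih h1
    rwa [one_mul] at h

private theorem wdl_inv {Γ : Type} [Group Γ] (a b : Γ) (n : ℕ) (g : Γ)
    (hg : IsWd a b n g) : IsWd a b n g⁻¹ := by
  induction n generalizing g with
  | zero =>
    obtain ⟨w, rfl⟩ := hg
    have : wd a b w = 1 := by simp [wd]
    rw [this, inv_one]
    exact wdl_one a b 0
  | succ n ih =>
    obtain ⟨w, rfl⟩ := hg
    have h1 : wd a b w = lt a b (w 0) * wd a b (fun i : Fin n => w i.succ) := by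
      unfold wd
      rw [List.ofFn_succ, List.prod_cons]
    rw [h1, mul_inv_rev]
    have h2 : IsWd a b 1 (lt a b (w 0))⁻¹ := by
      have key : ∀ i : Fin 5, IsWd a b 1 (lt a b i)⁻¹ := by
        intro i
        fin_cases i
        · have : (lt a b (0 : Fin 5))⁻¹ = lt a b 0 := by simp [lt]
          exact (congrArg (IsWd a b 1) this).mpr (wdl_lt a b 0)
        · have : (lt a b (1 : Fin 5))⁻¹ = lt a b 2 := by simp [lt]
          exact (congrArg (IsWd a b 1) this).mpr (wdl_lt a b 2)
        · have : (lt a b (2 : Fin 5))⁻¹ = lt a b 1 := by simp [lt]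
          exact (congrArg (IsWd a b 1) this).mpr (wdl_lt a b 1)
        · have : (lt a b (3 : Fin 5))⁻¹ = lt a b 4 := by simp [lt]
          exact (congrArg (IsWd a b 1) this).mpr (wdl_lt a b 4)
        · have : (lt a b (4 : Fin 5))⁻¹ = lt a b 3 := by simp [lt]
          exact (congrArg (IsWd a b 1) this).mpr (wdl_lt a b 3)
      exact key _
    exact wdl_mul a b n 1 _ _ (ih _ ⟨_, rfl⟩) h2

private theorem wdl_map {Γ Δ : Type} [Group Γ] [Group Δ] (a b : Γ) (φ : Γ →* Δ) (n : ℕ)
    (w : Fin n → Fin 5) : φ (wd a b w) = wd (φ a) (φ b) w := by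
  unfold wd
  rw [map_list_prod, List.map_ofFn]
  apply congrArg List.prod
  apply congrArg List.ofFn
  funext i
  have key : ∀ j : Fin 5, φ (lt a b j) = lt (φ a) (φ b) j := by
    intro j
    fin_cases j <;> simp [lt]
  exact key _

/-- WDL -/
theorem st_WDL : ST_WDL := by
  intro Γ _ a b
  refine ⟨wdl_mul a b, wdl_inv a b, ?_, wdl_lt a b 1, wdl_lt a b 3, ?_⟩
  · intro m n g hmn hg
    obtain ⟨k, rfl⟩ := Nat.exists_eq_add_of_le hmn
    have h := wdl_mul a b m k g 1 hg (wdl_one a b k)
    rwa [mul_one] at h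
  · intro Δ _ φ n
    refine ⟨wdl_map a b φ n, ?_⟩
    intro u
    unfold dw dc ct
    simp only [map_mul, map_inv, wdl_map a b φ n]

end Pool.Agent.Helper80.XP
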